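import Mathlib
import Pool.Agent.Q33.Cum.Greedy

/-!
For every real `η > 1` there is a strictly increasing sequence of positive integers with ratios
tending to `η` whose cosine sums have the cumulant asymptotics of the independent model.
-/

namespace Pool.Agent.Results.MP_5c394f_nt.EveryRatioLimit

open MeasureTheory Filter Topology Finset

/-- `S_n(ω) = ∑_{k=1}^n cos (2π a_k ω)` -/
noncomputable def S (a : ℕ → ℕ) (n : ℕ) (ω : ℝ) : ℝ :=
  ∑ k ∈ Icc 1 n, Real.cos (2 * Real.pi * a k * ω)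

/-- the `m`-th cumulant of `X` with respect to Lebesgue measure on `[0,1]` -/
noncomputable def kappa (m : ℕ) (X : ℝ → ℝ) : ℝ :=
  iteratedDeriv m (fun t => Real.log (∫ ω in Set.Icc (0 : ℝ) 1, Real.exp (t * X ω))) 0

/-- `I₀(t) = ∑_j (t/2)^(2j) / (j!)^2` -/
noncomputable def I0 (t : ℝ) : ℝ := ∑' j : ℕ, (t / 2) ^ (2 * j) / ((j.factorial : ℝ)) ^ 2

/-- the cumulants of the independent model -/
noncomputable def kappaTilde (m : ℕ) : ℝ := iteratedDeriv m (fun t => Real.log (I0 t)) 0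

theorem result (η : ℝ) (hη : 1 < η) :
    ∃ a : ℕ → ℕ, StrictMono a ∧ (∀ k, 0 < a k) ∧
      Tendsto (fun k => (a (k + 1) : ℝ) / a k) atTop (𝓝 η) ∧
      (∀ m : ℕ, 1 ≤ m → Tendsto (fun n : ℕ => kappa m (S a n) / n) atTop (𝓝 (kappaTilde m))) ∧
      ∀ m : ℕ, ∃ C : ℝ, ∀ᶠ n : ℕ in atTop, kappa m (S a n) = n * kappaTilde m + C := by
  have hconst : ∀ m : ℕ, ∃ C : ℝ, ∀ᶠ n : ℕ in atTop,
      kappa m (S (Q33.Cum.sq η) n) = n * kappaTilde m + C := by
    intro m
    obtain ⟨K, hK⟩ := eventually_atTop.1 (Q33.Cum.lev_tendsto hη m)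
    refine ⟨kappa m (S (Q33.Cum.sq η) K) - K * kappaTilde m, ?_⟩
    filter_upwards [eventually_ge_atTop K] with n hn
    induction n, hn using Nat.le_induction with
    | base => ring
    | succ n hn ih =>
      have h1 := Q33.Cum.kappa_step hη m n (hK n hn)
      have h2 : kappa m (S (Q33.Cum.sq η) (n + 1)) =
          kappa m (S (Q33.Cum.sq η) n) + kappaTilde m := h1
      rw [h2, ih]
      push_cast
      ring
  refine ⟨Q33.Cum.sq η, Q33.Cum.sq_strictMono hη, Q33.Cum.sq_pos hη, Q33.Cum.ratio_tendsto hη,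
    ?_, hconst⟩
  intro m _
  obtain ⟨C, hC⟩ := hconst m
  have h1 : Tendsto (fun n : ℕ => kappaTilde m + C / (n : ℝ)) atTop (𝓝 (kappaTilde m)) := by
    have := (tendsto_const_div_atTop_nhds_zero_nat C).const_add (kappaTilde m)
    rwa [add_zero] at this
  refine h1.congr' ?_
  filter_upwards [hC, eventually_gt_atTop 0] with n hn hn0
  rw [hn]
  have : (n : ℝ) ≠ 0 := by exact_mod_cast hn0.ne'
  field_simp

end Pool.Agent.Results.MP_5c394f_nt.EveryRatioLimit
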